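import Pool.Agent.P.MP_b4ec01_an.Nb.Main

namespace Pool.Agent.Results.MP_b4ec01_an.NestedBalls

open Pool.Agent.P.MP_b4ec01_an

universe u v w

/-- For uncountable `κ`, a finite poset `Q` and any index set `ι`, the space `C(B(κ)^ι)` is
isomorphic to a subspace of `C(K Q)` exactly when `ι` injects into an antichain of `Q`. -/
theorem result (κ : Type u) [Uncountable κ]
    (Q : Type v) [Fintype Q] [PartialOrder Q] [DecidableLE Q] (ι : Type w) :
    (∃ T : C(ι → B κ, ℝ) →L[ℝ] C(Nb.K Q κ, ℝ), Topology.IsEmbedding T) ↔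
      ∃ φ : ι → Q, Function.Injective φ ∧ IsAntichain (· ≤ ·) (Set.range φ) :=
  Nb.width_iff ι

end Pool.Agent.Results.MP_b4ec01_an.NestedBalls
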