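import Pool.Agent.P.MP_b4ec01_an.Pw.Main

namespace Pool.Agent.Results.MP_b4ec01_an.Powers

open Pool.Agent.P.MP_b4ec01_an

universe u v w

/-- For uncountable `κ` and arbitrary index sets, the space `C(B(κ)^ι')` is isomorphic to a
subspace of `C(B(κ)^ι)` exactly when `ι'` injects in `ι`. -/
theorem result (κ : Type u) [Uncountable κ] (ι : Type v) (ι' : Type w) :
    (∃ T : C(ι' → B κ, ℝ) →L[ℝ] C(ι → B κ, ℝ), Topology.IsEmbedding T) ↔ Nonempty (ι' ↪ ι) :=
  Pw.embeds_iff ι ι'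

end Pool.Agent.Results.MP_b4ec01_an.Powers
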